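import Pool.Agent.Helper20.Mono.Goals

/-! Packet I2: adding a vertex at height one does not change the normalised volume. -/

namespace Mono

open Finset

theorem idx_congr {n : ℕ} {B B' : Set (Fin n → ℤ)}
    (h : AddSubgroup.closure B = AddSubgroup.closure B') : idx B = idx B' := by
  have hs : sat B = sat B' := by
    ext x
    constructor
    · rintro ⟨k, hk, hx⟩
      exact ⟨k, hk, by rw [← h]; exact hx⟩
    · rintro ⟨k, hk, hx⟩
      exact ⟨k, hk, by rw [h]; exact hx⟩
  unfold idx
  rw [h, hs]

theorem closure_le_sat {n : ℕ} (B : Set (Fin n → ℤ)) : AddSubgroup.closure B ≤ sat B := by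
  intro x hx
  exact ⟨1, one_ne_zero, by simpa using hx⟩

theorem volHeight : VolHeight := by
  intro n τ p i hτ hp
  rcases τ.eq_empty_or_nonempty with rfl | ⟨u0, hu0⟩
  · refine idx_congr ?_
    have h1 : {x : Fin n → ℤ | ∃ u ∈ insert p (∅ : Finset (Fin n → ℤ)),
        ∃ v ∈ insert p (∅ : Finset (Fin n → ℤ)), x = u - v} = {0} := by
      ext x
      simp only [Set.mem_ofPred_eq, Finset.mem_insert, Finset.notMem_empty, or_false,
        Set.mem_singleton_iff]
      constructor
      · rintro ⟨u, rfl, v, rfl, rfl⟩
        simp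
      · rintro rfl
        exact ⟨p, rfl, p, rfl, by simp⟩
    have h2 : {x : Fin n → ℤ | ∃ u ∈ (∅ : Finset (Fin n → ℤ)),
        ∃ v ∈ (∅ : Finset (Fin n → ℤ)), x = u - v} = ∅ := by
      ext x
      simp
    rw [h1, h2, AddSubgroup.closure_empty]
    simp
  · set B : Set (Fin n → ℤ) := {x | ∃ u ∈ τ, ∃ v ∈ τ, x = u - v} with hB
    set B' : Set (Fin n → ℤ) := {x | ∃ u ∈ insert p τ, ∃ v ∈ insert p τ, x = u - v} with hB'
    set E := AddSubgroup.closure B with hE
    set E' := AddSubgroup.closure B' with hE'
    have hf : ∀ x ∈ E, x i = 0 := by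
      intro x hx
      have : E ≤ (Pi.evalAddMonoidHom (fun _ : Fin n => ℤ) i).ker := by
        rw [hE, AddSubgroup.closure_le]
        rintro x ⟨u, hu, v, hv, rfl⟩
        simp [AddMonoidHom.mem_ker, hτ u hu, hτ v hv]
      exact this hx
    have hsf : ∀ x ∈ sat B, x i = 0 := by
      rintro x ⟨k, hk, hx⟩
      have := hf _ hx
      simp only [Pi.smul_apply, smul_eq_mul, mul_eq_zero] at this
      exact this.resolve_left hk
    have hEE' : E ≤ E' := by
      refine AddSubgroup.closure_mono ?_
      rintro x ⟨u, hu, v, hv, rfl⟩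
      exact ⟨u, Finset.mem_insert_of_mem hu, v, Finset.mem_insert_of_mem hv, rfl⟩
    have hpE' : p - u0 ∈ E' :=
      AddSubgroup.subset_closure ⟨p, Finset.mem_insert_self _ _, u0,
        Finset.mem_insert_of_mem hu0, rfl⟩
    have hdec : ∀ x ∈ E', x - x i • (p - u0) ∈ E := by
      intro x hx
      induction hx using AddSubgroup.closure_induction with
      | mem x hx =>
        obtain ⟨u, hu, v, hv, rfl⟩ := hx
        rw [Finset.mem_insert] at hu hv
        rcases hu with rfl | hu <;> rcases hv with rfl | hv
        · simp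
        · have e : (u - v) - (u - v) i • (u - u0) = u0 - v := by
            simp [hp, hτ v hv]
          rw [e]
          exact AddSubgroup.subset_closure ⟨u0, hu0, v, hv, rfl⟩
        · have e : (u - v) - (u - v) i • (v - u0) = u - u0 := by
            simp [hp, hτ u hu]
          rw [e]
          exact AddSubgroup.subset_closure ⟨u, hu, u0, hu0, rfl⟩
        · have e : (u - v) - (u - v) i • (p - u0) = u - v := by
            simp [hτ u hu, hτ v hv]
          rw [e]
          exact AddSubgroup.subset_closure ⟨u, hu, v, hv, rfl⟩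
      | zero => simp
      | add x y _ _ ihx ihy =>
        have e : (x + y) - (x + y) i • (p - u0) = (x - x i • (p - u0)) + (y - y i • (p - u0)) := by
          rw [Pi.add_apply, add_smul]; abel
        rw [e]
        exact AddSubgroup.add_mem _ ihx ihy
      | neg x _ ihx =>
        have e : (-x) - (-x) i • (p - u0) = -(x - x i • (p - u0)) := by
          rw [Pi.neg_apply, neg_smul]; abel
        rw [e]
        exact AddSubgroup.neg_mem _ ihx
    have hsat : sat B' = sat B ⊔ E' := by
      apply le_antisymm
      · rintro x ⟨k, hk, hx⟩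
        have h1 := hdec _ hx
        have h2 : x - x i • (p - u0) ∈ sat B := by
          refine ⟨k, hk, ?_⟩
          have e : k • (x - x i • (p - u0)) = k • x - (k • x) i • (p - u0) := by
            rw [smul_sub, smul_smul, Pi.smul_apply, smul_eq_mul]
          rw [e]
          exact h1
        have e : x = (x - x i • (p - u0)) + x i • (p - u0) := by abel
        rw [e]
        exact AddSubgroup.add_mem _ (AddSubgroup.mem_sup_left h2)
          (AddSubgroup.mem_sup_right (AddSubgroup.zsmul_mem _ hpE' _))
      · refine sup_le ?_ (closure_le_sat B')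
        rintro x ⟨k, hk, hx⟩
        exact ⟨k, hk, hEE' hx⟩
    have hinf : E' ⊓ sat B = E := by
      apply le_antisymm
      · rintro x ⟨hx1, hx2⟩
        have h1 := hdec x hx1
        rw [hsf x hx2, zero_smul, sub_zero] at h1
        exact h1
      · exact le_inf hEE' (closure_le_sat B)
    change idx B' = idx B
    unfold idx
    rw [hsat]
    change E'.relIndex (sat B ⊔ E') = E.relIndex (sat B)
    rw [AddSubgroup.relIndex_sup_right, ← AddSubgroup.inf_relIndex_right, hinf]

end Mono
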