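import Pool.Agent.Helper20.Mono.Goals

/-! Packet A2: walls of the fan. -/

namespace Mono

open Finset Classical

variable {n : ℕ}

/-- Same-side lemma. -/
theorem same_side (Φ : Fan n) {ρ : Finset (Fin n → ℤ)} {u u2 : Fin n → ℤ} (hu : u ∉ ρ)
    (hu2 : u2 ∉ ρ) (h : Φ.IsFace (insert u ρ)) (h2 : Φ.IsFace (insert u2 ρ)) {α β : ℝ}
    (hα : 0 < α) (hβ : 0 < β) {c d : (Fin n → ℤ) → ℝ}
    (he : α • toR u + ∑ v ∈ ρ, c v • toR v = β • toR u2 + ∑ v ∈ ρ, d v • toR v) : u = u2 := by
  obtain ⟨F, hF, hsF⟩ := h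
  obtain ⟨F2, hF2, hsF2⟩ := h2
  have hρF : ρ ⊆ F := (Finset.subset_insert _ _).trans hsF
  have hρF2 : ρ ⊆ F2 := (Finset.subset_insert _ _).trans hsF2
  have huF : u ∈ F := hsF (Finset.mem_insert_self _ _)
  have hu2F2 : u2 ∈ F2 := hsF2 (Finset.mem_insert_self _ _)
  -- a large constant
  set K : ℝ := ∑ v ∈ ρ, (|c v| + |d v|) with hK
  have hKc : ∀ v ∈ ρ, 0 ≤ c v + K := by
    intro v hv
    have : |c v| + |d v| ≤ K :=
      Finset.single_le_sum (f := fun v => |c v| + |d v|) (fun _ _ => by positivity) hv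
    have := neg_abs_le (c v)
    have := abs_nonneg (d v)
    linarith
  have hKd : ∀ v ∈ ρ, 0 ≤ d v + K := by
    intro v hv
    have : |c v| + |d v| ≤ K :=
      Finset.single_le_sum (f := fun v => |c v| + |d v|) (fun _ _ => by positivity) hv
    have := neg_abs_le (d v)
    have := abs_nonneg (c v)
    linarith
  -- combinations
  have key : ∀ (G : Finset (Fin n → ℤ)) (w : Fin n → ℤ) (γ : ℝ) (e : (Fin n → ℤ) → ℝ),
      w ∉ ρ → w ∈ G → ρ ⊆ G →
      IsCrd G (γ • toR w + ∑ v ∈ ρ, (e v + K) • toR v)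
        (fun v => if v = w then γ else if v ∈ ρ then e v + K else 0) := by
    intro G w γ e hw hwG hρG
    refine ⟨fun v hv => ?_, ?_⟩
    · have h1 : v ≠ w := fun h => hv (h ▸ hwG)
      have h2 : v ∉ ρ := fun h => hv (hρG h)
      simp [h1, h2]
    · have hsub : insert w ρ ⊆ G := Finset.insert_subset hwG hρG
      rw [← Finset.sum_subset hsub, Finset.sum_insert hw]
      · congr 1
        · simp
        · refine Finset.sum_congr rfl fun v hv => ?_
          have h1 : v ≠ w := fun h => hw (h ▸ hv)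
          simp [h1, hv]
      · intro v _ hv
        rw [Finset.mem_insert, not_or] at hv
        simp [hv.1, hv.2]
  set x : Fin n → ℝ := α • toR u + ∑ v ∈ ρ, (c v + K) • toR v with hx
  have hx2 : x = β • toR u2 + ∑ v ∈ ρ, (d v + K) • toR v := by
    rw [hx]
    simp only [add_smul, Finset.sum_add_distrib]
    rw [← add_assoc, he, add_assoc]
  have hI := Φ.mx_indep F hF
  have hI2 := Φ.mx_indep F2 hF2
  have h1 : crd F x = (fun v => if v = u then α else if v ∈ ρ then c v + K else 0) :=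
    crd_unique hI (key F u α c hu huF hρF)
  have h2 : crd F2 x = (fun v => if v = u2 then β else if v ∈ ρ then d v + K else 0) := by
    rw [hx2]
    exact crd_unique hI2 (key F2 u2 β d hu2 hu2F2 hρF2)
  have hn1 : ∀ v, 0 ≤ crd F x v := by
    intro v
    rw [h1]
    dsimp only
    split_ifs with h3 h4
    · exact hα.le
    · exact hKc v h4
    · exact le_refl _
  have hn2 : ∀ v, 0 ≤ crd F2 x v := by
    intro v
    rw [h2]
    dsimp only
    split_ifs with h3 h4
    · exact hβ.le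
    · exact hKd v h4
    · exact le_refl _
  have hu2F : u2 ∈ F := by
    by_contra hnot
    have := Φ.inter F2 hF2 F hF x hn2 hn1 u2 hnot
    rw [h2] at this
    simp at this
    exact hβ.ne' this
  have h3 : crd F x = (fun v => if v = u2 then β else if v ∈ ρ then d v + K else 0) := by
    rw [hx2]
    exact crd_unique hI (key F u2 β d hu2 hu2F hρF)
  by_contra hne
  have h4 := congrFun (h1.symm.trans h3) u
  simp [hne, hu] at h4
  exact hα.ne' h4

/-- A set of cardinality one more containing `ρ`. -/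
theorem exists_insert {ρ τ : Finset (Fin n → ℤ)} (h : ρ ⊆ τ) (hc : τ.card = ρ.card + 1) :
    ∃ u, u ∉ ρ ∧ τ = insert u ρ := by
  have h1 : (τ \ ρ).card = 1 := by
    rw [Finset.card_sdiff_of_subset h]; omega
  obtain ⟨u, hu⟩ := Finset.card_eq_one.mp h1
  have hu1 : u ∈ τ \ ρ := by rw [hu]; exact Finset.mem_singleton_self u
  rw [Finset.mem_sdiff] at hu1
  refine ⟨u, hu1.2, ?_⟩
  have h2 : τ = (τ \ ρ) ∪ ρ := (Finset.sdiff_union_of_subset h).symm
  rw [h2, hu]
  rfl

theorem mem_mxT_h72 (Φ : Fan n) {T : Finset (Fin n)} {τ : Finset (Fin n → ℤ)} :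
    τ ∈ Φ.mxT T ↔ Φ.IsFace τ ∧ τ.card = T.card ∧ ∀ u ∈ τ, ∀ i, i ∉ T → u i = 0 := by
  unfold Fan.mxT
  rw [Finset.mem_filter, Fan.mem_faces]

theorem wallT (hS : SpanT) (hC : StarCoverT) : WallT := by
  intro n Φ T ρ hρ hcard hcs
  have hρT : ∀ u ∈ ρ, ∀ i, i ∉ T → u i = 0 := by
    intro u hu i hi
    by_contra h
    apply hi
    rw [← hcs]
    unfold cs
    rw [Finset.mem_filter]
    exact ⟨Finset.mem_univ _, u, hu, h⟩
  -- a vector outside of the span
  obtain ⟨i, hiT, hi⟩ : ∃ i ∈ T, (Pi.single i 1 : Fin n → ℝ) ∉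
      Submodule.span ℝ ((ρ.image toR : Finset (Fin n → ℝ)) : Set (Fin n → ℝ)) := by
    by_contra hcon
    push Not at hcon
    have hli : LinearIndependent ℝ (fun i : T => (Pi.single (i : Fin n) 1 : Fin n → ℝ)) := by
      have := (Pi.basisFun ℝ (Fin n)).linearIndependent
      have h2 := this.comp (fun i : T => (i : Fin n)) Subtype.val_injective
      convert h2 using 2
      simp
    have h3 := linearIndependent_le_span' _ hli
      ((ρ.image toR : Finset (Fin n → ℝ)) : Set (Fin n → ℝ)) (by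
        rintro _ ⟨j, rfl⟩
        exact hcon j j.2)
    simp only [Cardinal.mk_fintype, Fintype.card_coe, Finset.coe_sort_coe] at h3
    have h4 : T.card ≤ (ρ.image toR).card := by exact_mod_cast h3
    have h5 := Finset.card_image_le (s := ρ) (f := toR (n := n))
    omega
  set y : Fin n → ℝ := Pi.single i 1 with hy
  have hyT : ∀ j, j ∉ T → y j = 0 := by
    intro j hj
    have : j ≠ i := fun h => hj (h ▸ hiT)
    simp [hy, this]
  have hvac : ∀ y' : Fin n → ℝ, ∀ j ∈ T, (∀ u ∈ ρ, u j = 0) → 0 ≤ y' j := by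
    intro y' j hj h
    exfalso
    rw [← hcs] at hj
    unfold cs at hj
    rw [Finset.mem_filter] at hj
    obtain ⟨_, u, hu, hne⟩ := hj
    exact hne (h u hu)
  have hspan : ∀ c : (Fin n → ℤ) → ℝ, ∑ v ∈ ρ, c v • toR v ∈
      Submodule.span ℝ ((ρ.image toR : Finset (Fin n → ℝ)) : Set (Fin n → ℝ)) := by
    intro c
    refine Submodule.sum_mem _ fun v hv => Submodule.smul_mem _ _ (Submodule.subset_span ?_)
    exact Finset.mem_coe.mpr (Finset.mem_image_of_mem _ hv)
  -- decomposition with respect to a maximal cone containing ρ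
  have hdec : ∀ τ ∈ Φ.mxT T, ρ ⊆ τ → ∃ u, u ∉ ρ ∧ τ = insert u ρ ∧ ∀ z : Fin n → ℝ,
      (∀ j, j ∉ T → z j = 0) → z = crd τ z u • toR u + ∑ v ∈ ρ, crd τ z v • toR v := by
    intro τ hτ hρτ
    have hτ' := (mem_mxT_h72 Φ).mp hτ
    obtain ⟨u, hu, rfl⟩ := exists_insert hρτ (by omega)
    refine ⟨u, hu, rfl, fun z hz => ?_⟩
    have := (hS n Φ T _ hτ z hz).2
    rw [Finset.sum_insert hu] at this
    exact this
  obtain ⟨τ, hτ, hρτ, hpos⟩ := hC n Φ T ρ hρ hρT y hyT (hvac y)
  obtain ⟨u, hu, rfl, hz⟩ := hdec τ hτ hρτ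
  obtain ⟨τ', hτ', hρτ', hpos'⟩ := hC n Φ T ρ hρ hρT (-y) (fun j hj => by
    rw [Pi.neg_apply, hyT j hj, neg_zero]) (hvac (-y))
  obtain ⟨u', hu', rfl, hz'⟩ := hdec τ' hτ' hρτ'
  have hyy := hz y hyT
  have hyy' := hz' (-y) (fun j hj => by rw [Pi.neg_apply, hyT j hj, neg_zero])
  set a := crd (insert u ρ) y u with ha
  set b := crd (insert u' ρ) (-y) u' with hb
  have ha0 : 0 < a := by
    refine lt_of_le_of_ne (hpos u hu) ?_
    intro h0
    apply hi
    rw [hyy, ← h0, zero_smul, zero_add]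
    exact hspan _
  have hb0 : 0 < b := by
    refine lt_of_le_of_ne (hpos' u' hu') ?_
    intro h0
    apply hi
    have : -y ∈ Submodule.span ℝ ((ρ.image toR : Finset (Fin n → ℝ)) : Set (Fin n → ℝ)) := by
      rw [hyy', ← h0, zero_smul, zero_add]
      exact hspan _
    have h2 := Submodule.neg_mem _ this
    rwa [neg_neg] at h2
  have hrel : a • toR u + b • toR u' =
      ∑ v ∈ ρ, (-(crd (insert u ρ) y v + crd (insert u' ρ) (-y) v)) • toR v := by
    simp only [neg_smul, add_smul, Finset.sum_neg_distrib, Finset.sum_add_distrib]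
    have h1 : y + -y = 0 := add_neg_cancel y
    rw [hyy'] at h1
    nth_rewrite 1 [hyy] at h1
    have h2 : (a • toR u + b • toR u') + (∑ v ∈ ρ, crd (insert u ρ) y v • toR v +
        ∑ v ∈ ρ, crd (insert u' ρ) (-y) v • toR v) = 0 := by
      rw [← h1]; abel
    exact eq_neg_of_add_eq_zero_left h2
  refine ⟨u, u', ?_, hu, hu', hτ, hτ', ?_, a, b, _, ha0, hb0, hrel⟩
  · rintro rfl
    have hind := Fan.IsFace.indep Φ ((mem_mxT_h72 Φ).mp hτ).1
    have h1 : ∑ v ∈ insert u ρ, (if v = u then a + b else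
        (crd (insert u ρ) y v + crd (insert u ρ) (-y) v)) • toR v = 0 := by
      rw [Finset.sum_insert hu]
      have e : ∑ v ∈ ρ, (if v = u then a + b else
          (crd (insert u ρ) y v + crd (insert u ρ) (-y) v)) • toR v
          = ∑ v ∈ ρ, (crd (insert u ρ) y v + crd (insert u ρ) (-y) v) • toR v := by
        refine Finset.sum_congr rfl fun v hv => ?_
        have : v ≠ u := fun h => hu (h ▸ hv)
        rw [if_neg this]
      rw [e, if_pos rfl, add_smul, hrel]
      simp only [neg_smul, Finset.sum_neg_distrib]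
      abel
    have h2 := hind.sum_eq_zero h1 u (Finset.mem_insert_self _ _)
    rw [if_pos rfl] at h2
    linarith
  · intro τ'' hτ'' hρτ''
    obtain ⟨u'', hu'', rfl, hz''⟩ := hdec τ'' hτ'' hρτ''
    have hyy'' := hz'' y hyT
    have hf := ((mem_mxT_h72 Φ).mp hτ).1
    have hf' := ((mem_mxT_h72 Φ).mp hτ').1
    have hf'' := ((mem_mxT_h72 Φ).mp hτ'').1
    rcases lt_trichotomy (crd (insert u'' ρ) y u'') 0 with h | h | h
    · right
      have : u' = u'' := by
        refine same_side Φ hu' hu'' hf' hf'' hb0 (neg_pos.mpr h)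
          (c := fun v => crd (insert u' ρ) (-y) v)
          (d := fun v => - crd (insert u'' ρ) y v) ?_
        rw [← hyy']
        nth_rewrite 1 [hyy'']
        simp only [neg_smul, Finset.sum_neg_distrib]
        abel
      rw [this]
    · exfalso
      apply hi
      rw [hyy'', h, zero_smul, zero_add]
      exact hspan _
    · left
      have : u = u'' := by
        refine same_side Φ hu hu'' hf hf'' ha0 h
          (c := fun v => crd (insert u ρ) y v)
          (d := fun v => crd (insert u'' ρ) y v) ?_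
        rw [← hyy, ← hyy'']
      rw [this]

theorem bdryT (hS : SpanT) (hC : StarCoverT) : BdryT := by
  intro n Φ T i ρ hi hρ
  have hρ' := (mem_mxT_h72 Φ).mp hρ
  have hcardT : (T.erase i).card + 1 = T.card := Finset.card_erase_add_one hi
  have hρi : ∀ u ∈ ρ, u i = 0 := fun u hu => hρ'.2.2 u hu i (Finset.notMem_erase i T)
  set y : Fin n → ℝ := Pi.single i 1 with hy
  have hyT : ∀ j, j ∉ T → y j = 0 := by
    intro j hj
    have : j ≠ i := fun h => hj (h ▸ hi)
    simp [hy, this]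
  have hyi : y i = 1 := by simp [hy]
  have hdec : ∀ τ ∈ Φ.mxT T, ρ ⊆ τ → ∃ u, u ∉ ρ ∧ τ = insert u ρ ∧
      y = crd τ y u • toR u + ∑ v ∈ ρ, crd τ y v • toR v ∧
      1 = crd τ y u * (u i : ℝ) ∧ 0 ≤ u i := by
    intro τ hτ hρτ
    have hτ' := (mem_mxT_h72 Φ).mp hτ
    obtain ⟨u, hu, rfl⟩ := exists_insert hρτ (by omega)
    have h1 := (hS n Φ T _ hτ y hyT).2
    rw [Finset.sum_insert hu] at h1
    refine ⟨u, hu, rfl, h1, ?_, ?_⟩
    · have h2 := congrFun h1 i
      rw [hyi, Pi.add_apply, Finset.sum_apply] at h2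
      rw [Finset.sum_eq_zero] at h2
      · simpa using h2
      · intro v hv
        simp [hρi v hv]
    · exact Φ.vert_nonneg u (Fan.IsFace.subset_vert Φ hτ'.1 (Finset.mem_insert_self _ _)) i
  obtain ⟨τ, hτ, hρτ, hpos⟩ := hC n Φ T ρ hρ'.1
    (fun u hu j hj => hρ'.2.2 u hu j (fun h => hj (Finset.mem_of_mem_erase h))) y hyT
    (fun j _ _ => by
      rw [hy]
      by_cases h : j = i
      · subst h; simp
      · simp [h])
  obtain ⟨u, hu, rfl, hyu, h1, hui⟩ := hdec τ hτ hρτ
  have hc0 : 0 < crd (insert u ρ) y u := by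
    refine lt_of_le_of_ne (hpos u hu) ?_
    intro h0
    rw [← h0, zero_mul] at h1
    exact one_ne_zero h1
  have hui' : 0 < u i := by
    refine lt_of_le_of_ne hui ?_
    intro h0
    rw [← h0] at h1
    simp at h1
  refine ⟨u, hu, hτ, hui', ?_⟩
  intro τ'' hτ'' hρτ''
  obtain ⟨u'', hu'', rfl, hyu'', h1'', hui''⟩ := hdec τ'' hτ'' hρτ''
  have hc0'' : 0 < crd (insert u'' ρ) y u'' := by
    by_contra hneg
    push Not at hneg
    have h2 : (0 : ℝ) ≤ (u'' i : ℝ) := by exact_mod_cast hui''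
    have := mul_nonpos_of_nonpos_of_nonneg hneg h2
    linarith
  have hf := ((mem_mxT_h72 Φ).mp hτ).1
  have hf'' := ((mem_mxT_h72 Φ).mp hτ'').1
  have : u = u'' := by
    refine same_side Φ hu hu'' hf hf'' hc0 hc0''
      (c := fun v => crd (insert u ρ) y v)
      (d := fun v => crd (insert u'' ρ) y v) ?_
    rw [← hyu, ← hyu'']
  rw [this]

end Mono
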